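import Pool.Agent.H66.IQ.TD

set_option autoImplicit false

namespace Pool.Agent.H15.IQ

open Finset Pool.Agent.H66.IQ
open Pool.Agent.H66.IP (fp)
open Pool.Agent.H78.XQ (nt ws wm)

section

variable {V : Type} [Fintype V] [DecidableEq V]

omit [Fintype V] in
private theorem adj_ff (x : V) (y : V → Bool) : fp x (fp x y) = y := by
  funext v
  by_cases h : v = x
  · subst h
    simp [fp]
  · simp [fp, h]

omit [Fintype V] in
private theorem adj_at (x : V) (y : V → Bool) : fp x y x = !y x := by
  simp [fp]

private theorem adj_up (x : V) (y : V → Bool) (h : y x = false) : nt (fp x y) = nt y + 1 := by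
  unfold nt
  have e : (univ.filter fun v => fp x y v = true) = insert x (univ.filter fun v => y v = true) := by
    ext v
    simp only [mem_filter, mem_univ, true_and, mem_insert]
    by_cases hv : v = x
    · subst hv
      simp [fp, h]
    · simp [fp, hv]
  rw [e, card_insert_of_notMem (by simp [h])]

private theorem adj_dn (x : V) (y : V → Bool) (h : y x = true) : nt (fp x y) + 1 = nt y := by
  have h1 := adj_up x (fp x y) (by rw [adj_at, h]; rfl)
  rw [adj_ff] at h1
  exact h1.symm

private theorem adj_ws (W : ℕ) (y : V → Bool) : y ∈ ws (fun _ => none) W ↔ nt y = W := by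
  classical
  unfold ws
  simp only [Finset.mem_filter, Finset.mem_univ, true_and]
  constructor
  · exact fun h => h.2
  · intro h
    refine ⟨?_, h⟩
    intro v b hv
    simp at hv

private theorem adj_bij (W : ℕ) (H : (V → Bool) → V → ℝ) :
    ∑ y ∈ ws (fun _ => none) (W + 1), ∑ x ∈ univ.filter (fun x => y x = true), H y x =
      ∑ y ∈ ws (fun _ => none) W, ∑ x ∈ univ.filter (fun x => y x = false), H (fp x y) x := by
  rw [Finset.sum_sigma', Finset.sum_sigma']
  refine Finset.sum_bij' (fun p _ => ⟨fp p.2 p.1, p.2⟩) (fun p _ => ⟨fp p.2 p.1, p.2⟩) ?_ ?_ ?_ ?_ ?_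
  · intro p hp
    rw [mem_sigma, adj_ws, mem_filter] at hp ⊢
    have h1 := adj_dn p.2 p.1 hp.2.2
    refine ⟨(by omega : nt (fp p.2 p.1) = W), mem_univ _, ?_⟩
    show fp p.2 p.1 p.2 = false
    rw [adj_at, hp.2.2]
    rfl
  · intro p hp
    rw [mem_sigma, adj_ws, mem_filter] at hp ⊢
    have h1 := adj_up p.2 p.1 hp.2.2
    refine ⟨(by omega : nt (fp p.2 p.1) = W + 1), mem_univ _, ?_⟩
    show fp p.2 p.1 p.2 = true
    rw [adj_at, hp.2.2]
    rfl
  · intro p _
    simp only [adj_ff]
  · intro p _
    simp only [adj_ff]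
  · intro p _
    simp only [adj_ff]

omit [DecidableEq V] in
private theorem adj_cf (W : ℕ) (y : V → Bool) (h : nt y = W) :
    ((univ.filter fun x => y x = false).card : ℝ) = Fintype.card V - W := by
  have h1 := Finset.card_filter_add_card_filter_not (s := (univ : Finset V)) (fun x => y x = true)
  have h2 : (univ.filter fun x => ¬ y x = true) = univ.filter fun x => y x = false := by
    ext x
    simp
  rw [h2, Finset.card_univ] at h1
  unfold nt at h
  rw [h] at h1
  have h3 : (W : ℝ) + ((univ.filter fun x => y x = false).card : ℝ) = Fintype.card V := by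
    exact_mod_cast h1
  linarith

private theorem adj_ne (W : ℕ) (hW : W ≤ Fintype.card V) :
    0 < (ws (fun _ : V => none) W).card := by
  obtain ⟨s, hs⟩ := Finset.exists_subset_card_eq (s := (univ : Finset V)) (n := W)
    (by rw [Finset.card_univ]; exact hW)
  refine Finset.card_pos.mpr ⟨fun v => decide (v ∈ s), ?_⟩
  rw [adj_ws]
  unfold nt
  rw [← hs.2]
  congr 1
  ext v
  simp

end

theorem pf_ADJ (hEXL : T_EXL) : T_ADJ := by
  intro V _ _ W w t hw hW
  set E : (V → Bool) → ℝ := t.ev with hE
  set N : ℝ := (Fintype.card V : ℝ) with hN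
  have hWN : (W : ℝ) + 1 ≤ N := by rw [hN]; exact_mod_cast hW
  have hw' : (t.wd : ℝ) ≤ w := by exact_mod_cast hw
  have c0 : (0 : ℝ) < (ws (fun _ : V => none) W).card := by
    exact_mod_cast adj_ne (V := V) W (by omega)
  have c1 : (0 : ℝ) < (ws (fun _ : V => none) (W + 1)).card := by
    exact_mod_cast adj_ne (V := V) (W + 1) hW
  -- the three double countings
  have d1 : ((W : ℝ) + 1) * (ws (fun _ : V => none) (W + 1)).card =
      (N - W) * (ws (fun _ : V => none) W).card := by
    have h := adj_bij (V := V) W (fun _ _ => 1)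
    simp only [Finset.sum_const, nsmul_eq_mul, mul_one] at h
    have e1 : ∑ y ∈ ws (fun _ : V => none) (W + 1), ((univ.filter fun x => y x = true).card : ℝ) =
        ((W : ℝ) + 1) * (ws (fun _ : V => none) (W + 1)).card := by
      rw [Finset.sum_congr rfl (g := fun _ => (W : ℝ) + 1) (fun y hy => by
        have : nt y = W + 1 := (adj_ws _ _).mp hy
        unfold nt at this
        rw [this]
        push_cast
        rfl), Finset.sum_const, nsmul_eq_mul, mul_comm]
    have e2 : ∑ y ∈ ws (fun _ : V => none) W, ((univ.filter fun x => y x = false).card : ℝ) =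
        (N - W) * (ws (fun _ : V => none) W).card := by
      rw [Finset.sum_congr rfl (g := fun _ => N - (W : ℝ)) (fun y hy => by
        rw [adj_cf W y ((adj_ws _ _).mp hy)]), Finset.sum_const, nsmul_eq_mul, mul_comm]
    rw [e1, e2] at h
    exact h
  have d2 : ∑ y ∈ ws (fun _ : V => none) (W + 1), ∑ x ∈ univ.filter (fun x => y x = true),
      E (fp x y) = (N - W) * ∑ y ∈ ws (fun _ : V => none) W, E y := by
    rw [adj_bij W (fun y x => E (fp x y)), Finset.mul_sum]
    refine Finset.sum_congr rfl fun y hy => ?_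
    simp only [adj_ff, Finset.sum_const, nsmul_eq_mul]
    rw [adj_cf W y ((adj_ws _ _).mp hy)]
  have d3 : ∑ y ∈ ws (fun _ : V => none) W, ∑ x ∈ univ.filter (fun x => y x = false),
      E (fp x y) = ((W : ℝ) + 1) * ∑ y ∈ ws (fun _ : V => none) (W + 1), E y := by
    rw [← adj_bij W (fun y _ => E y), Finset.mul_sum]
    refine Finset.sum_congr rfl fun y hy => ?_
    simp only [Finset.sum_const, nsmul_eq_mul]
    have : nt y = W + 1 := (adj_ws _ _).mp hy
    unfold nt at this
    rw [this]
    push_cast
    rfl
  -- the local inequality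
  have hloc : ∀ (y : V → Bool) (s : Finset V), ∑ x ∈ s, (E y - E (fp x y)) ≤ w := by
    intro y s
    obtain ⟨a, ha0, ha1, ha2⟩ := hEXL V t y
    calc ∑ x ∈ s, (E y - E (fp x y)) ≤ ∑ x ∈ s, a x := by
          refine Finset.sum_le_sum fun x _ => (ha2 (fp x y)).trans (le_of_eq ?_)
          have e : (univ.filter fun v => y v ≠ fp x y v) = {x} := by
            ext v
            simp only [mem_filter, mem_univ, true_and, mem_singleton]
            by_cases hv : v = x
            · subst hv
              simp [fp]
            · simp [fp, hv]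
          rw [e, Finset.sum_singleton]
      _ ≤ ∑ x, a x := Finset.sum_le_sum_of_subset_of_nonneg (Finset.subset_univ _)
          (fun x _ _ => ha0 x)
      _ ≤ w := ha1.trans hw'
  have hN0 : 0 < N - W := by linarith
  have hW0 : (0 : ℝ) < (W : ℝ) + 1 := by positivity
  constructor
  · have h1 : ∑ y ∈ ws (fun _ : V => none) (W + 1), ∑ x ∈ univ.filter (fun x => y x = true),
        (E y - E (fp x y)) ≤ (ws (fun _ : V => none) (W + 1)).card * w := by
      refine (Finset.sum_le_sum fun y _ => hloc y _).trans ?_
      rw [Finset.sum_const, nsmul_eq_mul]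
    have h2 : ∑ y ∈ ws (fun _ : V => none) (W + 1), ∑ x ∈ univ.filter (fun x => y x = true),
        (E y - E (fp x y)) = ((W : ℝ) + 1) * (∑ y ∈ ws (fun _ : V => none) (W + 1), E y) -
          (N - W) * ∑ y ∈ ws (fun _ : V => none) W, E y := by
      rw [← d2, Finset.mul_sum, ← Finset.sum_sub_distrib]
      refine Finset.sum_congr rfl fun y hy => ?_
      rw [Finset.sum_sub_distrib]
      congr 1
      have : nt y = W + 1 := (adj_ws _ _).mp hy
      unfold nt at this
      rw [Finset.sum_const, nsmul_eq_mul, this]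
      push_cast
      rfl
    have h3 : wm (fun _ : V => none) (W + 1) E - wm (fun _ : V => none) W E =
        (((W : ℝ) + 1) * (∑ y ∈ ws (fun _ : V => none) (W + 1), E y) -
          (N - W) * ∑ y ∈ ws (fun _ : V => none) W, E y) /
            (((W : ℝ) + 1) * (ws (fun _ : V => none) (W + 1)).card) := by
      unfold wm
      rw [sub_div, mul_div_mul_left _ _ hW0.ne', d1, mul_div_mul_left _ _ hN0.ne']
    rw [h3, ← h2, div_le_div_iff₀ (by positivity) hW0]
    nlinarith
  · have h1 : ∑ y ∈ ws (fun _ : V => none) W, ∑ x ∈ univ.filter (fun x => y x = false),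
        (E y - E (fp x y)) ≤ (ws (fun _ : V => none) W).card * w := by
      refine (Finset.sum_le_sum fun y _ => hloc y _).trans ?_
      rw [Finset.sum_const, nsmul_eq_mul]
    have h2 : ∑ y ∈ ws (fun _ : V => none) W, ∑ x ∈ univ.filter (fun x => y x = false),
        (E y - E (fp x y)) = (N - W) * (∑ y ∈ ws (fun _ : V => none) W, E y) -
          ((W : ℝ) + 1) * ∑ y ∈ ws (fun _ : V => none) (W + 1), E y := by
      rw [← d3, Finset.mul_sum, ← Finset.sum_sub_distrib]
      refine Finset.sum_congr rfl fun y hy => ?_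
      rw [Finset.sum_sub_distrib]
      congr 1
      rw [Finset.sum_const, nsmul_eq_mul, adj_cf W y ((adj_ws _ _).mp hy)]
    have h3 : wm (fun _ : V => none) W E - wm (fun _ : V => none) (W + 1) E =
        ((N - W) * (∑ y ∈ ws (fun _ : V => none) W, E y) -
          ((W : ℝ) + 1) * ∑ y ∈ ws (fun _ : V => none) (W + 1), E y) /
            ((N - W) * (ws (fun _ : V => none) W).card) := by
      unfold wm
      rw [sub_div, mul_div_mul_left _ _ hN0.ne', ← d1, mul_div_mul_left _ _ hW0.ne']
    rw [h3, ← h2, div_le_div_iff₀ (by positivity) hN0]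
    nlinarith

end Pool.Agent.H15.IQ
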