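import Pool.Agent.H66.IQ.TD

/-!
# Board IQ, row BFA: a game whose leaves are formulas does not see a block
-/

set_option autoImplicit false

namespace Pool.Agent.H15.IQ

open Finset Pool.Agent.H6.NB Pool.Agent.H70.EH Pool.Agent.H78.XQ Pool.Agent.H66.IQ

private theorem bfa_cc {V : Type} (t : Tr V) : t.cc ≤ t.dp := by
  induction t with
  | lf a => exact le_rfl
  | av l r hl hr =>
    show max l.cc r.cc ≤ max l.dp r.dp + 1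
    omega
  | ch l r hl hr =>
    show max l.cc r.cc + 1 ≤ max l.dp r.dp + 1
    omega

theorem pf_BFA (hEVS : T_EVS) (hBLA : T_BLA) (hOND : T_OND) (hGWA : T_GWA) (hNUA : T_NUA) :
    T_BFA := by
  intro r l q R n hS b F h1 h2
  obtain ⟨hN1, hN2⟩ := hNUA r l q R n hS
  have hr : 20 ≤ r := hS.r_ge
  obtain ⟨d, rfl⟩ : ∃ d, r = d + 1 := ⟨r - 1, by omega⟩
  have hl : 0 < l := by
    have h3 : 0 < 16 * (d + 1) ^ 3 := by positivity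
    exact lt_of_lt_of_le h3 hS.l_ge
  have hq : 10 ≤ q := by
    rw [hS.q_eq]
    omega
  have hR : 0 < R := by
    rw [hS.R_eq]
    positivity
  have hδ : (0 : ℝ) < R / 2 ^ l := by
    have : (0 : ℝ) < R := by exact_mod_cast hR
    positivity
  have hw1 : 1 ≤ 4 ^ (d + 1) := Nat.one_le_pow _ _ (by norm_num)
  have hk1 : 1 ≤ 2 ^ (d + 1) := Nat.one_le_two_pow
  have h01 : ∀ c, 0 ≤ F c ∧ F c ≤ 1 := by
    rintro ⟨P, h⟩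
    obtain ⟨t, -, -, ht⟩ := h2 P
    rw [ht h]
    obtain ⟨h3, h4, h5, -⟩ := hEVS _ 1 t h one_pos
    exact ⟨h3.trans h4, h5⟩
  have key := hBLA (d + 1) l q R n hS b F
    ((128 * ((4 ^ (d + 1) : ℕ) : ℝ)) ^ (2 * (d + 1)) *
      (4003 * ((2 ^ (d + 1) : ℕ) : ℝ) ^ 2 * (((2 ^ (d + 1) : ℕ) : ℝ) + 1) *
          ((4 ^ (d + 1) : ℕ) : ℝ) ^ 2 / 2 ^ (q / 4) +
        (2 * 2 ^ q) ^ 2 * 2 ^ 2 ^ (d + 1) * (((2 ^ 2 ^ (d + 1) : ℕ) : ℝ) + 1) ^ (d + 1) /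
          2 ^ 4 ^ (d + 1)))
    (2 ^ 2 ^ (d + 1) * (((2 ^ 2 ^ (d + 1) : ℕ) : ℝ) + 1) ^ (d + 1) / 2 ^ 4 ^ (d + 1) +
      4 * Real.exp (-(2 ^ n * (R / 2 ^ l) ^ 2 / 4)) +
      4 * ((4 ^ (d + 1) : ℕ) : ℝ) * (5 * (R / 2 ^ l) * (128 * ((4 ^ (d + 1) : ℕ) : ℝ)) ^ (d + 1) +
        √(2 * (128 * ((4 ^ (d + 1) : ℕ) : ℝ)) ^ (d + 1) / 2 ^ n)) +
      32 * (128 * ((4 ^ (d + 1) : ℕ) : ℝ)) ^ (d + 1) / 2 ^ n)
    h01 (by positivity) (by positivity) (fun P u h => ?_) (fun P W hW => ?_)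
  · exact key.trans hN2
  · obtain ⟨t, ht1, ht2, ht3⟩ := h1 P u h
    have h4 := hOND q (2 ^ (d + 1)) (2 ^ (d + 1)) (2 ^ 2 ^ (d + 1)) d (4 ^ (d + 1)) t hq hk1 hw1
      ((bfa_cc t).trans ht1) ht1 ht2
    simp only [ht3]
    exact h4
  · obtain ⟨t, ht1, ht2, ht3⟩ := h2 P
    have hc : (Fintype.card (Fin n → Bool) : ℝ) = 2 ^ n := by
      rw [Fintype.card_fun, Fintype.card_bool, Fintype.card_fin]
      push_cast
      rfl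
    have h4 := hGWA (Fin n → Bool) (2 ^ 2 ^ (d + 1)) d (4 ^ (d + 1)) W (R / 2 ^ l) t hw1 hδ hN1 ht2
      (by rw [hc]; exact hW)
    rw [hc] at h4
    have h5 : (fun h : (Fin n → Bool) → Bool => F (P, h)) = t.ev := funext ht3
    rw [h5]
    refine h4.trans ?_
    have h6 : (2 : ℝ) ^ t.dp ≤ 2 ^ 2 ^ (d + 1) := pow_le_pow_right₀ (by norm_num) ht1
    have h7 : (2 : ℝ) ^ t.dp * (((2 ^ 2 ^ (d + 1) : ℕ) : ℝ) + 1) ^ (d + 1) / 2 ^ 4 ^ (d + 1) ≤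
        2 ^ 2 ^ (d + 1) * (((2 ^ 2 ^ (d + 1) : ℕ) : ℝ) + 1) ^ (d + 1) / 2 ^ 4 ^ (d + 1) := by
      gcongr
    linarith

end Pool.Agent.H15.IQ
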